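import Mathlib
import Pool.Agent.KS6_1.RF.PoGroup

set_option autoImplicit false

/-!
# Which groups with a partial order are full automorphism groups of posets?

A group with a partial order is isomorphic, as a group and as an ordered set, to `Aut(Ω, ≤)` with
the pointwise order for some poset `Ω` if and only if it is a partially ordered group (both
translations are monotone). Moreover `Ω` can be chosen of cardinality `max |G| ℵ₀`, and it can
also be chosen to be a completely distributive complete lattice.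
-/

namespace Pool.Agent.Results.MP_32c87b_al.PoGroups

universe u

/-- `G` is isomorphic, as a group and as an ordered set, to the group `Aut(Ω, ≤)` of all order
automorphisms of `Ω`, under composition and with the pointwise order. -/
def IsAut (G : Type u) [Group G] [PartialOrder G] (Ω : Type u) [PartialOrder Ω] : Prop :=
  ∃ φ : G → (Ω ≃o Ω), Function.Bijective φ ∧
    (∀ a b : G, φ (a * b) = (φ b).trans (φ a)) ∧
    (∀ a b : G, a ≤ b ↔ ∀ x : Ω, φ a x ≤ φ b x)

/-- `G` is a partially ordered group: `a ≤ b` implies `x * a * y ≤ x * b * y`. -/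
def IsPoGroup (G : Type u) [Group G] [PartialOrder G] : Prop :=
  ∀ a b x y : G, a ≤ b → x * a * y ≤ x * b * y

theorem result (G : Type u) [Group G] [PartialOrder G] :
    (IsPoGroup G ↔ ∃ (Ω : Type u) (_ : PartialOrder Ω), IsAut G Ω) ∧
    (IsPoGroup G ↔ ∃ (Ω : Type u) (_ : PartialOrder Ω),
      Cardinal.mk Ω = max (Cardinal.mk G) Cardinal.aleph0 ∧ IsAut G Ω) ∧
    (IsPoGroup G ↔ ∃ (L : Type u) (_ : CompletelyDistribLattice L), IsAut G L) := by
  have a1 : IsPoGroup G → MulLeftMono G ∧ MulRightMono G := by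
    intro h
    constructor
    · refine ⟨fun c a b hab => ?_⟩
      have := h a b c 1 hab
      simpa using this
    · refine ⟨fun c a b hab => ?_⟩
      have := h a b 1 c hab
      simpa using this
  have a2 : ∀ (Ω : Type u) [PartialOrder Ω], IsAut G Ω → IsPoGroup G := by
    rintro Ω _ ⟨φ, -, h1, h2⟩
    obtain ⟨_, _⟩ := KS6_1.RF.PoGroup.conv G Ω φ h1 h2
    intro a b x y h
    exact mul_le_mul_left (mul_le_mul_right h x) y
  refine ⟨⟨fun h => ?_, ?_⟩, ⟨fun h => ?_, ?_⟩, ⟨fun h => ?_, ?_⟩⟩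
  · obtain ⟨_, _⟩ := a1 h
    obtain ⟨Ω, i, -, h1⟩ := KS6_1.RF.PoGroup.poset G
    exact ⟨Ω, i, h1⟩
  · rintro ⟨Ω, _, h⟩
    exact a2 Ω h
  · obtain ⟨_, _⟩ := a1 h
    obtain ⟨Ω, i, h0, h1⟩ := KS6_1.RF.PoGroup.poset G
    exact ⟨Ω, i, h0, h1⟩
  · rintro ⟨Ω, _, -, h⟩
    exact a2 Ω h
  · obtain ⟨_, _⟩ := a1 h
    obtain ⟨L, i, h1⟩ := KS6_1.RF.PoGroup.lattice G
    exact ⟨L, i, h1⟩
  · rintro ⟨L, _, h⟩
    exact a2 L h

end Pool.Agent.Results.MP_32c87b_al.PoGroups
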